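import Pool.Agent.H56.CF.Targets

/-!
Module RCOP: ideals prime to `f` in each class.
-/

set_option autoImplicit false

open NumberField Module
open scoped nonZeroDivisors

namespace Pool.Agent.H34.CF

open Pool.Agent.H56.CF

theorem pf_COP : T_COP := by
  intro K _ _ f hf c
  have hf0 : (f : 𝓞 K) ≠ 0 := by
    have : f ≠ 0 := by omega
    exact_mod_cast this
  have hF : Ideal.span {(f : 𝓞 K)} ≠ ⊥ := by
    rw [Ne, Ideal.span_singleton_eq_bot]
    exact hf0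
  obtain ⟨J, hJ⟩ := ClassGroup.mk0_surjective c⁻¹
  have hJ0 : (J : Ideal (𝓞 K)) ≠ ⊥ := mem_nonZeroDivisors_iff_ne_zero.1 J.2
  have hle : (J : Ideal (𝓞 K)) * Ideal.span {(f : 𝓞 K)} ≤ J := Ideal.mul_le_left
  have hne : (J : Ideal (𝓞 K)) * Ideal.span {(f : 𝓞 K)} ≠ 0 := mul_ne_zero hJ0 hF
  obtain ⟨a, ha⟩ := IsDedekindDomain.exists_sup_span_eq hle hne
  -- an ideal of the class `c`
  obtain ⟨I₀, hI₀⟩ := ClassGroup.mk0_surjective c
  by_cases ha0 : a = 0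
  · rw [ha0, Ideal.span_singleton_eq_bot.2 rfl, sup_bot_eq] at ha
    have h1 : Ideal.span {(f : 𝓞 K)} = ⊤ := by
      have h2 : (J : Ideal (𝓞 K)) * Ideal.span {(f : 𝓞 K)} = J * ⊤ := by rw [ha, Ideal.mul_top]
      exact mul_left_cancel₀ hJ0 h2
    exact ⟨I₀, hI₀, by rw [h1, sup_top_eq]⟩
  · have h1 : Ideal.span {a} ≤ (J : Ideal (𝓞 K)) := by
      rw [← ha]
      exact le_sup_right
    obtain ⟨I, hI⟩ := Ideal.dvd_iff_le.2 h1
    have hI0 : I ≠ ⊥ := by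
      intro h
      rw [h, Ideal.mul_bot] at hI
      exact ha0 (Ideal.span_singleton_eq_bot.1 hI)
    refine ⟨⟨I, mem_nonZeroDivisors_iff_ne_zero.2 hI0⟩, ?_, ?_⟩
    · have h2 : ClassGroup.mk0 J * ClassGroup.mk0 ⟨I, mem_nonZeroDivisors_iff_ne_zero.2 hI0⟩ = 1 := by
        rw [← map_mul, ClassGroup.mk0_eq_one_iff]
        have h3 : ((J * ⟨I, mem_nonZeroDivisors_iff_ne_zero.2 hI0⟩ : (Ideal (𝓞 K))⁰) :
            Ideal (𝓞 K)) = Ideal.span {a} := by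
          rw [hI]
          rfl
        rw [h3]
        exact ⟨⟨a, rfl⟩⟩
      rw [hJ] at h2
      exact (inv_mul_eq_one.1 h2).symm
    · have h2 : (J : Ideal (𝓞 K)) * (Ideal.span {(f : 𝓞 K)} ⊔ I) = J * ⊤ := by
        rw [Ideal.mul_sup, ← hI, ha, Ideal.mul_top]
      have h3 := mul_left_cancel₀ hJ0 h2
      change I ⊔ Ideal.span {(f : 𝓞 K)} = ⊤
      rw [sup_comm]
      exact h3

end Pool.Agent.H34.CF
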