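import Pool.Agent.H56.CF.Targets

/-!
Module RRSM: the class numbers of real quadratic fields are small on average.
-/

set_option autoImplicit false

open NumberField Module
open scoped nonZeroDivisors

namespace Pool.Agent.H34.CF

open Pool.Agent.H56.CF Pool.Agent.H91.CF

theorem pf_RSM (h : T_SHE) : Pool.Agent.H91.CF.T_RSM := by
  obtain ⟨C, hC, h1⟩ := h
  refine ⟨C, hC, ?_⟩
  intro Y hY K _ _ hK
  classical
  refine h1 K ((FZ Y).filter (fun d => 0 < d)) Y ?_ ?_ hY
  · intro d hd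
    rw [Finset.mem_filter] at hd
    refine ⟨(hK d hd.1).1, (hK d hd.1).2, ?_⟩
    have h2 := hd.1
    unfold FZ at h2
    rw [Finset.mem_filter, Finset.mem_Icc] at h2
    have h3 : ((⌊Y⌋ : ℤ) : ℝ) ≤ Y := Int.floor_le Y
    have h4 : (d : ℝ) ≤ ((⌊Y⌋ : ℤ) : ℝ) := by exact_mod_cast h2.1.2
    have h5 : -((⌊Y⌋ : ℤ) : ℝ) ≤ (d : ℝ) := by exact_mod_cast h2.1.1
    rw [abs_le]
    constructor
    · linarith
    · linarith
  · intro d hd
    exact (Finset.mem_filter.1 hd).2

end Pool.Agent.H34.CF
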