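import Pool.Agent.H31.CF.U4

/-!
Module USL1: the residues modulo `2 A d` in place of pairs of residues.
-/

set_option autoImplicit false

open MeasureTheory Set Filter
open scoped Real

namespace Pool.Agent.H34.CFU

open Pool.Agent.H31.CN Pool.Agent.H91.CF Pool.Agent.H31.CF

theorem sl1_eq (A B j Δ : ℕ) :
    (B + 2 * A * j) ^ 2 + Δ = (B ^ 2 + Δ) + 4 * A * (B * j + A * j ^ 2) := by ring

theorem sl1_dvd (A B j Δ : ℕ) : 4 * A ∣ (B + 2 * A * j) ^ 2 + Δ ↔ 4 * A ∣ B ^ 2 + Δ := by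
  rw [sl1_eq]
  exact Nat.dvd_add_left (dvd_mul_right _ _)

theorem sl1_div (A B j Δ : ℕ) (hA : 1 ≤ A) :
    ((B + 2 * A * j) ^ 2 + Δ) / (4 * A) = (B ^ 2 + Δ) / (4 * A) + (B * j + A * j ^ 2) := by
  rw [sl1_eq]
  exact Nat.add_mul_div_left _ _ (by omega)

theorem sl1_phi (A : ℕ) (φ : ℤ → ℤ → ℝ) (h : ∀ B C, φ (B + 2 * A) (A + B + C) = φ B C)
    (B C : ℤ) (j : ℕ) : φ (B + 2 * A * j) (C + (B * j + A * j ^ 2)) = φ B C := by
  induction j with
  | zero => simp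
  | succ j ih =>
    rw [← ih, ← h (B + 2 * A * j) (C + (B * j + A * j ^ 2))]
    congr 1
    · push_cast
      ring
    · push_cast
      ring

theorem pf_SL1 : T_SL1 := by
  intro d A Δ φ Z hd hA hφ
  classical
  simp_rw [Finset.mul_sum]
  rw [Finset.sum_sigma']
  have hval : ∀ (B j : ℕ), val ((A : ℤ), (B : ℤ), (((B ^ 2 + Δ) / (4 * A) : ℕ) : ℤ)) ((j : ℤ), 1) =
      ((((B + 2 * A * j) ^ 2 + Δ) / (4 * A) : ℕ) : ℤ) := by
    intro B j
    rw [sl1_div A B j Δ hA]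
    unfold val
    push_cast
    ring
  refine Finset.sum_nbij' (fun x => x.1 + 2 * A * x.2)
    (fun b => (⟨b % (2 * A), b / (2 * A)⟩ : Σ _ : ℕ, ℕ)) ?_ ?_ ?_ ?_ ?_
  · rintro ⟨B, j⟩ hx
    rw [Finset.mem_sigma, Finset.mem_filter, Finset.mem_filter, Finset.mem_range,
      Finset.mem_range] at hx
    obtain ⟨⟨h1, h2⟩, h3, h4⟩ := hx
    simp only at h1 h2 h3 h4 ⊢
    rw [Finset.mem_filter, Finset.mem_range]
    refine ⟨?_, (sl1_dvd A B j Δ).2 h2, ?_⟩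
    · have h5 : 2 * A * (j + 1) ≤ 2 * A * d := Nat.mul_le_mul_left _ h3
      have h6 : 2 * A * (j + 1) = 2 * A * j + 2 * A := by ring
      omega
    · rw [← hval B j]
      exact h4
  · intro b hb
    rw [Finset.mem_filter, Finset.mem_range] at hb
    obtain ⟨h1, h2, h3⟩ := hb
    have h0 : 0 < 2 * A := by omega
    have hbe : b % (2 * A) + 2 * A * (b / (2 * A)) = b := Nat.mod_add_div b (2 * A)
    rw [Finset.mem_sigma, Finset.mem_filter, Finset.mem_filter, Finset.mem_range,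
      Finset.mem_range]
    simp only
    refine ⟨⟨Nat.mod_lt _ h0, ?_⟩, ?_, ?_⟩
    · refine (sl1_dvd A _ (b / (2 * A)) Δ).1 ?_
      rw [hbe]
      exact h2
    · exact Nat.div_lt_of_lt_mul h1
    · rw [hval, hbe]
      exact h3
  · rintro ⟨B, j⟩ hx
    rw [Finset.mem_sigma, Finset.mem_filter, Finset.mem_filter, Finset.mem_range,
      Finset.mem_range] at hx
    obtain ⟨⟨h1, h2⟩, h3, h4⟩ := hx
    simp only at h1
    have h0 : 0 < 2 * A := by omega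
    simp only
    rw [Nat.add_mul_mod_self_left, Nat.mod_eq_of_lt h1, Nat.add_mul_div_left _ _ h0,
      Nat.div_eq_of_lt h1, zero_add]
  · intro b _
    exact Nat.mod_add_div b (2 * A)
  · rintro ⟨B, j⟩ _
    simp only
    have h1 := sl1_phi A φ hφ (B : ℤ) (((B ^ 2 + Δ) / (4 * A) : ℕ) : ℤ) j
    have h2 : ((((B + 2 * A * j) ^ 2 + Δ) / (4 * A) : ℕ) : ℤ) =
        (((B ^ 2 + Δ) / (4 * A) : ℕ) : ℤ) + ((B : ℤ) * j + A * (j : ℤ) ^ 2) := by
      rw [sl1_div A B j Δ hA]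
      push_cast
      ring
    rw [h2]
    have h3 : ((B + 2 * A * j : ℕ) : ℤ) = (B : ℤ) + 2 * A * j := by push_cast; ring
    rw [h3, h1]

end Pool.Agent.H34.CFU
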