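import Pool.Agent.H95.CF.Targets

/-!
Module PREP: every class is the class of a primitive vector.
-/

set_option autoImplicit false

open NumberField Module MeasureTheory Set Filter
open scoped nonZeroDivisors Real

namespace Pool.Agent.H34.CF

open Pool.Agent.H31.CN Pool.Agent.H95.CF

theorem prep_cop (K : Type) [Field K] [NumberField K] (f : ℕ) (J : Ideal (𝓞 K))
    (h : Pr K f J) : Nat.Coprime (Ideal.absNorm J) f := by
  by_contra hc
  obtain ⟨p, hp, hp1, hp2⟩ := Nat.Prime.not_coprime_iff_dvd.1 hc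
  obtain ⟨P, hP, hP1, hP2⟩ := Ideal.exists_isMaximal_dvd_of_dvd_absNorm' hp J hp1
  have h1 : J ≤ P := Ideal.dvd_iff_le.1 hP2
  have h2 : (p : 𝓞 K) ∈ P := by
    have h3 : (p : ℤ) ∈ P.under ℤ := by
      rw [hP1]
      exact Ideal.mem_span_singleton_self _
    have h4 : algebraMap ℤ (𝓞 K) (p : ℤ) ∈ P := h3
    simpa using h4
  have h5 : Ideal.span {(f : 𝓞 K)} ≤ P := by
    rw [Ideal.span_singleton_le_iff_mem]
    obtain ⟨m, hm⟩ := hp2
    rw [hm, Nat.cast_mul]
    exact P.mul_mem_right _ h2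
  have h6 : (⊤ : Ideal (𝓞 K)) ≤ P := by
    rw [← h.2]
    exact sup_le h1 h5
  exact hP.ne_top (top_le_iff.1 h6)

theorem pf_REP : T_REP := by
  intro D K _ _ σ Q I α β b f G _ cl hFB hf hRG
  have hkey : ∀ g : G, ∃ (c : ClassGroup (𝓞 K)) (v : ℤ × ℤ), IsCoprime v.1 v.2 ∧
      Un f (Q c) v ∧ cl (b c v) = g := by
    intro g
    obtain ⟨J, hJ, hJg⟩ := hRG.sur g
    set J' : (Ideal (𝓞 K))⁰ := ⟨J, mem_nonZeroDivisors_iff_ne_zero.2 hJ.1⟩ with hJ'
    obtain ⟨v, hv0, hv⟩ := hFB.sur J'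
    set c : ClassGroup (𝓞 K) := ClassGroup.mk0 J' with hc
    have hgcd : 0 < Int.gcd v.1 v.2 := by
      rw [Nat.pos_iff_ne_zero]
      intro h0
      rw [Int.gcd_eq_zero_iff] at h0
      exact hv0 (Prod.ext h0.1 h0.2)
    obtain ⟨k, m, n, hk, hmn, h1, h2⟩ := Int.exists_gcd_one' hgcd
    have hcop : IsCoprime m n := Int.isCoprime_iff_gcd_eq_one.2 hmn
    have hne : ((m, n) : ℤ × ℤ) ≠ 0 := by
      intro h0
      have h3 : m = 0 := congrArg Prod.fst h0
      have h4 : n = 0 := congrArg Prod.snd h0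
      rw [h3, h4] at hmn
      simp at hmn
    have hkK : (k : 𝓞 K) ≠ 0 := by
      have : k ≠ 0 := by omega
      exact_mod_cast this
    -- the ideal of `v` is `k` times the ideal of the primitive vector
    have hmul : J = Ideal.span {(k : 𝓞 K)} * (b c (m, n) : Ideal (𝓞 K)) := by
      have e1 := hFB.spn c v hv0
      have e2 := hFB.spn c (m, n) hne
      have e3 : (v.1 : 𝓞 K) * α c + (v.2 : 𝓞 K) * β c =
          (k : 𝓞 K) * (((m : ℤ) : 𝓞 K) * α c + ((n : ℤ) : 𝓞 K) * β c) := by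
        rw [h1, h2]
        push_cast
        ring
      rw [hv] at e1
      have e4 : (J : Ideal (𝓞 K)) * (I c : Ideal (𝓞 K)) =
          (Ideal.span {(k : 𝓞 K)} * (b c (m, n) : Ideal (𝓞 K))) * (I c : Ideal (𝓞 K)) := by
        have e5 : Ideal.span {(v.1 : 𝓞 K) * α c + (v.2 : 𝓞 K) * β c} =
            Ideal.span {(k : 𝓞 K)} * Ideal.span {((m : ℤ) : 𝓞 K) * α c + ((n : ℤ) : 𝓞 K) * β c} := by
          rw [Ideal.span_singleton_mul_span_singleton, e3]
        rw [mul_assoc, ← e2, ← e5, e1]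
      exact mul_right_cancel₀ (nonZeroDivisors.coe_ne_zero (I c)) e4
    have hle1 : J ≤ Ideal.span {(k : 𝓞 K)} := by
      rw [hmul]
      exact Ideal.mul_le_left
    have hle2 : J ≤ (b c (m, n) : Ideal (𝓞 K)) := by
      rw [hmul]
      exact Ideal.mul_le_right
    have hPk : Pr K f (Ideal.span {(k : 𝓞 K)}) := by
      refine ⟨fun h => hkK (Ideal.span_singleton_eq_bot.1 h), ?_⟩
      rw [eq_top_iff, ← hJ.2]
      exact sup_le_sup_right hle1 _
    have hPb : Pr K f (b c (m, n) : Ideal (𝓞 K)) := by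
      refine ⟨nonZeroDivisors.coe_ne_zero _, ?_⟩
      rw [eq_top_iff, ← hJ.2]
      exact sup_le_sup_right hle2 _
    have hP1 : Pr K f (Ideal.span {(1 : 𝓞 K)}) := by
      rw [Ideal.span_singleton_one]
      exact ⟨top_ne_bot, top_sup_eq _⟩
    refine ⟨c, (m, n), hcop, ?_, ?_⟩
    · unfold Un
      rw [← hFB.nrm c (m, n) hne]
      exact Nat.isCoprime_iff_coprime.2 (prep_cop K f _ hPb)
    · rw [← hJg]
      refine (hRG.eqv _ _ hPb hJ).2 ⟨(k : 𝓞 K), 1, ⟨hPk, (k : ℤ), ?_⟩, ⟨hP1, 1, ?_⟩, ?_⟩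
      · rw [Int.cast_natCast, sub_self]
        exact Ideal.zero_mem _
      · rw [Int.cast_one, sub_self]
        exact Ideal.zero_mem _
      · rw [← hmul, Ideal.span_singleton_one, Ideal.top_mul]
  choose C V h1 h2 h3 using hkey
  exact ⟨C, V, ⟨h1, h2, h3⟩⟩

end Pool.Agent.H34.CF
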